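import Pool.Agent.H22.HD.Stmts

set_option autoImplicit false

open MeasureTheory ProbabilityTheory

namespace Pool.Agent.H22.HD

theorem h22_flt_thm : FLTStmt := by
  intro ι _ m
  let e : (Fin m → ι → ℝ) ≃ᵐ (Fin m × ι → ℝ) :=
    { toFun := fun y q => y q.1 q.2
      invFun := fun x j => blk x j
      left_inv := fun y => rfl
      right_inv := fun x => rfl
      measurable_toFun := by
        refine measurable_pi_iff.2 fun q => ?_
        exact (measurable_pi_apply q.2).comp (measurable_pi_apply q.1)
      measurable_invFun := by
        refine measurable_pi_iff.2 fun j => measurable_pi_iff.2 fun i => ?_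
        exact measurable_pi_apply (j, i) }
  have h : MeasurePreserving e (Measure.pi fun _ : Fin m => gam ι) (gam (Fin m × ι)) := by
    refine ⟨e.measurable, ?_⟩
    symm
    refine Measure.pi_eq fun s hs => ?_
    rw [Measure.map_apply e.measurable (MeasurableSet.univ_pi hs)]
    have h1 : e ⁻¹' Set.univ.pi s = Set.univ.pi (fun j : Fin m => Set.univ.pi fun i => s (j, i)) := by
      ext y
      simp only [Set.mem_preimage, Set.mem_pi, Set.mem_univ, true_implies, Prod.forall]
      rfl
    rw [h1, Measure.pi_pi, Fintype.prod_prod_type]
    refine Finset.prod_congr rfl fun j _ => ?_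
    rw [Measure.pi_pi]
  exact h.symm e

end Pool.Agent.H22.HD
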