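import Pool.Agent.H58.Heat.Defs

/-!
# Project HD (MP_744226_an, frozen S05056): Q1 fails for p close to 1.  Definitions and statements

Paper proof: `/team-store/HEAT_DISPROOF_helper22.md`.
-/

set_option autoImplicit false

open MeasureTheory ProbabilityTheory

namespace Pool.Agent.H22.HD

/-- the Gaussian measure -/
noncomputable abbrev gam (ι : Type) [Fintype ι] : Measure (ι → ℝ) :=
  Measure.pi (fun _ : ι => gaussianReal 0 1)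

/-- the tail space of degree `d` -/
def TT (ι : Type) [Fintype ι] (d : ℕ) : Submodule ℝ ((ι → ℝ) → ℝ) :=
  Submodule.span ℝ {g : (ι → ℝ) → ℝ | ∃ α : ι → ℕ, d ≤ ∑ i, α i ∧
    g = fun x => ∏ i, Polynomial.aeval (x i) (Polynomial.hermite (α i))}

/-- the block `j` of a point -/
def blk {ι : Type} {m : ℕ} (x : Fin m × ι → ℝ) (j : Fin m) : ι → ℝ := fun i => x (j, i)

/-- symmetric law -/
def Sy {Ω : Type} [MeasurableSpace Ω] (μ : Measure Ω) (f0 : Ω → ℝ) : Prop :=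
  ∀ φ : ℝ → ℝ, Continuous φ → (∀ y, φ (-y) = -φ y) → ∫ x, φ (f0 x) ∂μ = 0

/-- the property of the induction -/
def PP (p ρ : ℝ) : Prop := ∀ η : ℝ, 0 < η → ∃ (ι : Type) (_ : Fintype ι) (d : ℕ)
  (f0 f : (ι → ℝ) → ℝ), 1 ≤ d ∧ ContDiff ℝ 1 f0 ∧ (∀ x, |f0 x| ≤ 1) ∧ (∀ x, f0 (-x) = -f0 x) ∧
  (∀ x y, (f0 x - f0 y) ^ 2 ≤ ρ * d * ∑ i, (x i - y i) ^ 2) ∧ 1 / 4 ≤ ∫ x, f0 x ^ 2 ∂(gam ι) ∧
  f ∈ TT ι d ∧ eLpNorm (fun x => f x - f0 x) (ENNReal.ofReal p) (gam ι) ≤ ENNReal.ofReal η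

/-- the inequality of Q1 for one `p` and the constant `c` -/
def QI (p c : ℝ) : Prop := ∀ d : ℕ, 1 ≤ d → ∀ n : ℕ, ∀ f : (Fin n → ℝ) → ℝ,
  f ∈ Submodule.span ℝ {g : (Fin n → ℝ) → ℝ | ∃ α : Fin n → ℕ, d ≤ ∑ i, α i ∧
      g = fun x => ∏ i, Polynomial.aeval (x i) (Polynomial.hermite (α i))} →
  ENNReal.ofReal (c * (d : ℝ)) *
      MeasureTheory.eLpNorm f (ENNReal.ofReal p)
        (MeasureTheory.Measure.pi (fun _ : Fin n => ProbabilityTheory.gaussianReal 0 1))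
    ≤ MeasureTheory.eLpNorm
        (fun x => ∑ i, (x i * fderiv ℝ f x (Pi.single i 1)
          - fderiv ℝ (fun y => fderiv ℝ f y (Pi.single i 1)) x (Pi.single i 1)))
        (ENNReal.ofReal p)
        (MeasureTheory.Measure.pi (fun _ : Fin n => ProbabilityTheory.gaussianReal 0 1))

/-- QUA: quadrature (Bernstein's inequality in dual form).  Nodes `α cos (2 π l / L)`, `L = 2 r`;
with `z = -i / t`, `t = b / α + sqrt (1 + (b / α) ^ 2)`, `ω = exp (2 π i / L)`, the complex weights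
are `z ^ (1 - r) * ω ^ (l (r - 1)) * (1 / L) * ∑ k < L, (z * ω ^ (-l)) ^ k`. -/
def QUAStmt : Prop := ∀ (r : ℕ) (α b : ℝ), 1 ≤ r → 0 < α → 0 ≤ b →
  ∃ (L : ℕ) (a w : Fin L → ℝ), (∀ l, |a l| ≤ α) ∧
    (∀ k, k < r → ∑ l, w l * a l ^ k = ((Complex.I * b) ^ k).im) ∧
    ∑ l, |w l| ≤ 2 * r * Real.exp (r * b / α)

/-- PRN: norm of a product over independent blocks -/
def PRNStmt : Prop := ∀ (𝕜 : Type) [RCLike 𝕜] (Ω : Type) [MeasurableSpace Ω] (μ : Measure Ω)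
  [IsProbabilityMeasure μ] (p : ℝ), 1 ≤ p → ∀ (m : ℕ) (φ : Ω → 𝕜), Measurable φ →
  eLpNorm (fun x : Fin m → Ω => ∏ j, φ (x j)) (ENNReal.ofReal p) (Measure.pi fun _ => μ) =
    (eLpNorm φ (ENNReal.ofReal p) μ) ^ m

/-- TEL: difference of products over independent blocks -/
def TELStmt : Prop := ∀ (𝕜 : Type) [RCLike 𝕜] (Ω : Type) [MeasurableSpace Ω] (μ : Measure Ω)
  [IsProbabilityMeasure μ] (p : ℝ), 1 ≤ p → ∀ (m : ℕ) (φ ψ : Ω → 𝕜), Measurable φ →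
  Measurable ψ → eLpNorm φ (ENNReal.ofReal p) μ ≤ 2 → eLpNorm ψ (ENNReal.ofReal p) μ ≤ 2 →
  eLpNorm (fun x : Fin m → Ω => ∏ j, φ (x j) - ∏ j, ψ (x j)) (ENNReal.ofReal p)
    (Measure.pi fun _ => μ) ≤ m * 2 ^ m * eLpNorm (fun x => φ x - ψ x) (ENNReal.ofReal p) μ

/-- ONE: the norm of one factor at a real point -/
def ONEStmt : Prop := ∀ (Ω : Type) [MeasurableSpace Ω] (μ : Measure Ω)
  [IsProbabilityMeasure μ] (p : ℝ), 1 < p → p < 2 → ∀ (f f0 : Ω → ℝ), Measurable f →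
  Measurable f0 → (∀ x, |f0 x| ≤ 1) → ∫ x, f0 x ∂μ = 0 → ∀ ε : ℝ, |ε| ≤ 1 / 2 →
  eLpNorm (fun x => 1 + ε * f x) (ENNReal.ofReal p) μ ≤
    ENNReal.ofReal (1 + (p - 1) * ε ^ 2 * ∫ x, f0 x ^ 2 ∂μ) +
      ENNReal.ofReal |ε| * eLpNorm (fun x => f x - f0 x) (ENNReal.ofReal p) μ

/-- EXP: the product is close to the exponential -/
def EXPStmt : Prop := ∀ (Ω : Type) [MeasurableSpace Ω] (μ : Measure Ω)
  [IsProbabilityMeasure μ] (p : ℝ), 1 ≤ p → p ≤ 2 → ∀ (f0 : Ω → ℝ), Measurable f0 →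
  (∀ x, |f0 x| ≤ 1) → Sy μ f0 → 1 / 4 ≤ ∫ x, f0 x ^ 2 ∂μ → ∀ (m : ℕ) (b β : ℝ), 1 ≤ b →
  16 * b ^ 2 ≤ m → β = b / Real.sqrt (m * ∫ x, f0 x ^ 2 ∂μ) →
  eLpNorm (fun x : Fin m → Ω => Complex.exp (Complex.I * β * ∑ j, (f0 (x j) : ℂ)) -
    Real.exp (-b ^ 2 / 2) * ∏ j, (1 + Complex.I * β * f0 (x j))) (ENNReal.ofReal p)
    (Measure.pi fun _ => μ) ≤ ENNReal.ofReal (4 * b ^ 2 / Real.sqrt m)

/-- VAR: the variance of the new function -/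
def VARStmt : Prop := ∀ (Ω : Type) [MeasurableSpace Ω] (μ : Measure Ω)
  [IsProbabilityMeasure μ] (f0 : Ω → ℝ), Measurable f0 →
  (∀ x, |f0 x| ≤ 1) → Sy μ f0 → 1 / 4 ≤ ∫ x, f0 x ^ 2 ∂μ → ∀ (m : ℕ) (b β : ℝ), 1 ≤ b →
  16 * b ^ 2 ≤ m → β = b / Real.sqrt (m * ∫ x, f0 x ^ 2 ∂μ) →
  1 / 4 ≤ ∫ x : Fin m → Ω, (Real.sin (β * ∑ j, f0 (x j))) ^ 2 ∂(Measure.pi fun _ => μ)

/-- FLT: the blocks are independent -/
def FLTStmt : Prop := ∀ (ι : Type) [Fintype ι] (m : ℕ),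
  MeasurePreserving (fun (x : Fin m × ι → ℝ) (j : Fin m) => blk x j) (gam (Fin m × ι))
    (Measure.pi fun _ => gam ι)

/-- TAL: products of functions of different blocks -/
def TALStmt : Prop := ∀ (ι : Type) [Fintype ι] (m d : ℕ) (f : (ι → ℝ) → ℝ), f ∈ TT ι d →
  ∀ S : Finset (Fin m), (fun x : Fin m × ι → ℝ => ∏ j ∈ S, f (blk x j)) ∈
    TT (Fin m × ι) (S.card * d)

/-- BAS: the base of the induction -/
def BASStmt : Prop := ∀ p : ℝ, 1 < p → p < 2 → PP p 1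

/-- CN1: the norm of the gradient for `1 < p < 2` (Stroock-Varopoulos and Hoelder).  With
`φ_e y = (y ^ 2 + e) ^ ((p - 2) / 2) * y`: `(p - 1) E (g^2+e)^((p-2)/2) |∇g|^2 ≤ E φ_e(g) N g ≤
‖g‖_p^(p-1) ‖N g‖_p` (integration by parts: `Pool.Agent.H13.Heat.GB2`), Hoelder, `e → 0` -/
def CN1Stmt : Prop := ∀ p : ℝ, 1 < p → p < 2 → ∀ (n : ℕ) (g : Pool.Agent.H58.Heat.E n → ℝ),
  Pool.Agent.H58.Heat.IsPoly g →
  ∫ x, (Real.sqrt (Pool.Agent.H58.Heat.gd g g x)) ^ p ∂(Pool.Agent.H58.Heat.gm n) ≤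
    (1 / (p - 1)) ^ (p / 2) * ((∫ x, |g x| ^ p ∂(Pool.Agent.H58.Heat.gm n)) ^ (1 / 2 : ℝ) *
      (∫ x, |Pool.Agent.H58.Heat.NN g x| ^ p ∂(Pool.Agent.H58.Heat.gm n)) ^ (1 / 2 : ℝ))

/-- CON: the consequence of the inequality of Q1 (`g = N^(-1) f`, see `Pool.Agent.H44.Heat.H1`,
`H2`, `Pool.Agent.H13.Heat.GB2`; `1/8 ≤ E f f0 = E ∇g·∇f0 ≤ sqrt Λ ‖∇g‖_p`) -/
def CONStmt : Prop := ∀ (p c : ℝ), 1 < p → p < 2 → 0 < c → QI p c →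
  ∀ (n d : ℕ) (f0 f : (Fin n → ℝ) → ℝ) (Λ : ℝ), 1 ≤ d → ContDiff ℝ 1 f0 → (∀ x, |f0 x| ≤ 1) →
  (∀ x y, (f0 x - f0 y) ^ 2 ≤ Λ * ∑ i, (x i - y i) ^ 2) →
  1 / 4 ≤ ∫ x, f0 x ^ 2 ∂(gam (Fin n)) → f ∈ TT (Fin n) d →
  eLpNorm (fun x => f x - f0 x) (ENNReal.ofReal p) (gam (Fin n)) ≤ ENNReal.ofReal (1 / 8) →
  c * (p - 1) * d ≤ 81 * Λ

/-- RIX: change of the index type -/
def RIXStmt : Prop := ∀ (ι : Type) [Fintype ι] (d : ℕ) (f0 f : (ι → ℝ) → ℝ) (p Λ η : ℝ),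
  ContDiff ℝ 1 f0 → (∀ x, |f0 x| ≤ 1) →
  (∀ x y, (f0 x - f0 y) ^ 2 ≤ Λ * ∑ i, (x i - y i) ^ 2) →
  1 / 4 ≤ ∫ x, f0 x ^ 2 ∂(gam ι) → f ∈ TT ι d →
  eLpNorm (fun x => f x - f0 x) (ENNReal.ofReal p) (gam ι) ≤ ENNReal.ofReal η →
  ∃ (n : ℕ) (g0 g : (Fin n → ℝ) → ℝ), ContDiff ℝ 1 g0 ∧ (∀ x, |g0 x| ≤ 1) ∧
  (∀ x y, (g0 x - g0 y) ^ 2 ≤ Λ * ∑ i, (x i - y i) ^ 2) ∧
  1 / 4 ≤ ∫ x, g0 x ^ 2 ∂(gam (Fin n)) ∧ g ∈ TT (Fin n) d ∧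
  eLpNorm (fun x => g x - g0 x) (ENNReal.ofReal p) (gam (Fin n)) ≤ ENNReal.ofReal η

/-- STP: the step of the induction -/
def STPStmt : Prop := ∀ (p ρ : ℝ), 1 < p → p ≤ 1 + 1 / 2 ^ 15 → 0 < ρ → PP p ρ → PP p (ρ / 2)

end Pool.Agent.H22.HD
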