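import Pool.Agent.H22.HD.STP
import Pool.Agent.H25.HD.QUA
import Pool.Agent.H83.HD.PRNM
import Pool.Agent.H49.HD.TEL
import Pool.Agent.H62.HD.ONE
import Pool.Agent.H67.HD.EXP
import Pool.Agent.H3.HD.VAR
import Pool.Agent.H22.HD.FLT
import Pool.Agent.H83.HD.TAL
import Pool.Agent.H33.HD.BAS
import Pool.Agent.H88.HD.CN1
import Pool.Agent.H65.HD.CNS
import Pool.Agent.H64.HD.RIX

set_option autoImplicit false

namespace Pool.Agent.H22.HD

/-- For `p` close to `1` the dimension free inequality of Q1 fails with every constant. -/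
theorem all_false {p : ℝ} (hp : 1 < p) (hp2 : p ≤ 1 + 1 / 2 ^ 15) (c : ℝ) (hc : 0 < c) :
    ¬ QI p c :=
  QI_false bas_thm (stp_thm qua_thm prn_thm tel_thm one_thm exp_thm Pool.Agent.H3.HD.var_thm h22_flt_thm
    tal_thm) (con_thm Pool.Agent.H88.HD.cn1) rix_thm hp hp2 c hc

end Pool.Agent.H22.HD
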