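import Pool.Agent.H22.HD.Stmts

set_option autoImplicit false

open MeasureTheory ProbabilityTheory

namespace Pool.Agent.H22.HD

theorem TT_mono {ι : Type} [Fintype ι] {d d' : ℕ} (h : d ≤ d') : TT ι d' ≤ TT ι d := by
  refine Submodule.span_mono ?_
  rintro g ⟨α, h1, h2⟩
  exact ⟨α, h.trans h1, h2⟩

theorem TT_cont {ι : Type} [Fintype ι] {d : ℕ} {f : (ι → ℝ) → ℝ} (hf : f ∈ TT ι d) :
    Continuous f := by
  unfold TT at hf
  induction hf using Submodule.span_induction with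
  | mem g hg =>
    obtain ⟨α, _, rfl⟩ := hg
    refine continuous_finsetProd _ fun i _ => ?_
    exact (Polynomial.continuous_aeval _).comp (continuous_apply i)
  | zero => exact continuous_const
  | add x y _ _ hx hy => exact hx.add hy
  | smul a x _ hx => exact hx.const_smul a

theorem gam_neg (ι : Type) [Fintype ι] : MeasurePreserving (fun x : ι → ℝ => -x) (gam ι) (gam ι) := by
  have h : MeasurePreserving (fun y : ℝ => -y) (gaussianReal 0 1) (gaussianReal 0 1) := by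
    refine ⟨measurable_neg, ?_⟩
    have := gaussianReal_map_neg (μ := 0) (v := 1)
    simpa using this
  have h2 := measurePreserving_pi (fun _ : ι => gaussianReal 0 1) (fun _ : ι => gaussianReal 0 1)
    (f := fun _ y => -y) (fun _ => h)
  exact h2

theorem sy_of_odd {ι : Type} [Fintype ι] {f0 : (ι → ℝ) → ℝ} (hc : Continuous f0)
    (ho : ∀ x, f0 (-x) = -f0 x) : Sy (gam ι) f0 := by
  intro φ hφ hφo
  have h1 : ∫ x, φ (f0 x) ∂(gam ι) = ∫ x, φ (f0 (-x)) ∂(gam ι) := by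
    have h2 := integral_map (μ := gam ι) (φ := fun x : ι → ℝ => -x) (gam_neg ι).measurable.aemeasurable
      (f := fun x => φ (f0 x)) (hφ.comp hc).aestronglyMeasurable
    rw [(gam_neg ι).map_eq] at h2
    exact h2
  have h3 : ∫ x, φ (f0 (-x)) ∂(gam ι) = -∫ x, φ (f0 x) ∂(gam ι) := by
    rw [← integral_neg]
    refine integral_congr_ae (Filter.Eventually.of_forall fun x => ?_)
    show φ (f0 (-x)) = -φ (f0 x)
    rw [ho, hφo]
  linarith

theorem im_prod_expand {m : ℕ} (b c : ℝ) (u : Fin m → ℝ) :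
    (∏ j, (1 + Complex.I * ((b * c : ℝ) : ℂ) * (u j : ℂ))).im =
      ∑ S ∈ (Finset.univ : Finset (Fin m)).powerset,
        (((Complex.I * b) ^ S.card).im * c ^ S.card) * ∏ j ∈ S, u j := by
  rw [Finset.prod_one_add, Complex.im_sum]
  refine Finset.sum_congr rfl fun S _ => ?_
  have h : ∏ i ∈ S, (Complex.I * ((b * c : ℝ) : ℂ) * (u i : ℂ)) =
      (Complex.I * b) ^ S.card * ((c ^ S.card * ∏ j ∈ S, u j : ℝ) : ℂ) := by
    rw [Finset.prod_mul_distrib, Finset.prod_const]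
    push_cast
    rw [mul_pow, mul_pow, mul_pow]
    ring
  rw [h, Complex.im_mul_ofReal]
  ring

theorem re_prod_expand {m : ℕ} (a c : ℝ) (u : Fin m → ℝ) :
    ∏ j, (1 + a * c * u j) =
      ∑ S ∈ (Finset.univ : Finset (Fin m)).powerset,
        (a ^ S.card * c ^ S.card) * ∏ j ∈ S, u j := by
  rw [Finset.prod_one_add]
  refine Finset.sum_congr rfl fun S _ => ?_
  rw [Finset.prod_mul_distrib, Finset.prod_const, mul_pow]

theorem memF (hA : TALStmt) {ι : Type} [Fintype ι] {m d r L : ℕ} {f : (ι → ℝ) → ℝ}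
    (hf : f ∈ TT ι d) (a w : Fin L → ℝ) (b c K : ℝ)
    (hq : ∀ k, k < r → ∑ l, w l * a l ^ k = ((Complex.I * b) ^ k).im) :
    (fun x : Fin m × ι → ℝ => K * ((∏ j, (1 + Complex.I * ((b * c : ℝ) : ℂ) *
      (f (blk x j) : ℂ))).im - ∑ l, w l * ∏ j, (1 + a l * c * f (blk x j)))) ∈
      TT (Fin m × ι) (r * d) := by
  have h1 : (fun x : Fin m × ι → ℝ => K * ((∏ j, (1 + Complex.I * ((b * c : ℝ) : ℂ) *
      (f (blk x j) : ℂ))).im - ∑ l, w l * ∏ j, (1 + a l * c * f (blk x j)))) =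
      ∑ S ∈ (Finset.univ : Finset (Fin m)).powerset,
        (K * (((Complex.I * b) ^ S.card).im - ∑ l, w l * a l ^ S.card) * c ^ S.card) •
          (fun x : Fin m × ι → ℝ => ∏ j ∈ S, f (blk x j)) := by
    funext x
    rw [Finset.sum_apply, im_prod_expand b c (fun j => f (blk x j))]
    have h2 : ∑ l, w l * ∏ j, (1 + a l * c * f (blk x j)) =
        ∑ S ∈ (Finset.univ : Finset (Fin m)).powerset,
          ((∑ l, w l * a l ^ S.card) * c ^ S.card) * ∏ j ∈ S, f (blk x j) := by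
      simp_rw [fun l => re_prod_expand (a l) c (fun j => f (blk x j)), Finset.mul_sum]
      rw [Finset.sum_comm]
      refine Finset.sum_congr rfl fun S _ => ?_
      rw [Finset.sum_mul, Finset.sum_mul]
      refine Finset.sum_congr rfl fun l _ => ?_
      ring
    rw [h2, ← Finset.sum_sub_distrib, Finset.mul_sum]
    refine Finset.sum_congr rfl fun S _ => ?_
    simp only [Pi.smul_apply, smul_eq_mul]
    ring
  rw [h1]
  refine Submodule.sum_mem _ fun S _ => ?_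
  by_cases hS : S.card < r
  · rw [hq _ hS, sub_self, mul_zero, zero_mul, zero_smul]
    exact Submodule.zero_mem _
  · refine Submodule.smul_mem _ _ ?_
    exact TT_mono (Nat.mul_le_mul_right d (not_lt.1 hS)) (hA ι m d f hf S)

theorem norm_E (hP : PRNStmt) (hO : ONEStmt) {Ω : Type} [MeasurableSpace Ω] (μ : Measure Ω)
    [IsProbabilityMeasure μ] {p : ℝ} (hp : 1 < p) (hp2 : p ≤ 1 + 1 / 2 ^ 15)
    {f f0 : Ω → ℝ} (hf : Measurable f) (hf0 : Measurable f0) (h1 : ∀ x, |f0 x| ≤ 1)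
    (h0 : ∫ x, f0 x ∂μ = 0) (hv : 1 / 4 ≤ ∫ x, f0 x ^ 2 ∂μ) (s m : ℕ) (hs : 1 ≤ s)
    (hm : 65536 * s ^ 2 ≤ m) (a η' : ℝ) (ha : |a| ≤ 64 * s) (hη : 0 < η') (hη' : η' ≤ 1 / m)
    (he : eLpNorm (fun x => f x - f0 x) (ENNReal.ofReal p) μ ≤ ENNReal.ofReal η') :
    eLpNorm (fun x : Fin m → Ω => ∏ j, (1 + a * (1 / Real.sqrt (m * ∫ x, f0 x ^ 2 ∂μ)) *
      f (x j))) (ENNReal.ofReal p) (Measure.pi fun _ => μ) ≤
      ENNReal.ofReal (Real.exp ((s : ℝ) ^ 2 / 8 + 1 / 2)) := by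
  set v := ∫ x, f0 x ^ 2 ∂μ with hvdef
  have hs' : (1 : ℝ) ≤ s := by exact_mod_cast hs
  have hm' : (65536 : ℝ) * s ^ 2 ≤ m := by exact_mod_cast hm
  have hmpos : (0 : ℝ) < m := by nlinarith
  have hvpos : 0 < v := by linarith
  have hmv : 0 < m * v := by positivity
  have hsq : 0 < Real.sqrt (m * v) := Real.sqrt_pos.2 hmv
  set ε := a * (1 / Real.sqrt (m * v)) with hε
  have hε2 : m * (ε ^ 2 * v) = a ^ 2 := by
    rw [hε, mul_pow, one_div, inv_pow, Real.sq_sqrt hmv.le]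
    field_simp
  have hsqrt : 128 * s ≤ Real.sqrt (m * v) := by
    apply Real.le_sqrt_of_sq_le
    nlinarith
  have hεabs : |ε| ≤ 1 / 2 := by
    rw [hε, abs_mul, abs_of_pos (one_div_pos.2 hsq), mul_one_div, div_le_iff₀ hsq]
    linarith
  have h3 := hO Ω μ p hp (by linarith [show (1:ℝ) / 2 ^ 15 < 1 by norm_num]) f f0 hf hf0 h1 h0 ε hεabs
  have h4 : eLpNorm (fun x => 1 + ε * f x) (ENNReal.ofReal p) μ ≤
      ENNReal.ofReal (Real.exp ((p - 1) * ε ^ 2 * v + |ε| * η')) := by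
    refine h3.trans ?_
    calc _ ≤ ENNReal.ofReal (1 + (p - 1) * ε ^ 2 * v) + ENNReal.ofReal |ε| * ENNReal.ofReal η' := by
          gcongr
      _ = ENNReal.ofReal (1 + (p - 1) * ε ^ 2 * v + |ε| * η') := by
          rw [← ENNReal.ofReal_mul (abs_nonneg _), ← ENNReal.ofReal_add]
          · have : 0 ≤ (p - 1) * ε ^ 2 * v := by
              have : 0 ≤ p - 1 := by linarith
              positivity
            linarith
          · positivity
      _ ≤ _ := by
          apply ENNReal.ofReal_le_ofReal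
          have := Real.add_one_le_exp ((p - 1) * ε ^ 2 * v + |ε| * η')
          linarith
  have hmeas : Measurable (fun x => 1 + ε * f x) := measurable_const.add (hf.const_mul ε)
  have h5 := hP ℝ Ω μ p hp.le m (fun x => 1 + ε * f x) hmeas
  rw [h5]
  calc _ ≤ (ENNReal.ofReal (Real.exp ((p - 1) * ε ^ 2 * v + |ε| * η'))) ^ m := by gcongr
    _ = ENNReal.ofReal (Real.exp (m * ((p - 1) * ε ^ 2 * v + |ε| * η'))) := by
        rw [← ENNReal.ofReal_pow (Real.exp_pos _).le, ← Real.exp_nat_mul]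
    _ ≤ _ := by
        apply ENNReal.ofReal_le_ofReal
        apply Real.exp_le_exp.2
        have e1 : m * ((p - 1) * ε ^ 2 * v) = (p - 1) * a ^ 2 := by
          rw [← hε2]; ring
        have e2 : (p - 1) * a ^ 2 ≤ 1 / 2 ^ 15 * (64 * s) ^ 2 := by
          have h6 : a ^ 2 ≤ (64 * s) ^ 2 := by
            rw [← sq_abs a]
            exact pow_le_pow_left₀ (abs_nonneg _) ha 2
          have h7 : p - 1 ≤ 1 / 2 ^ 15 := by linarith
          have h8 : 0 ≤ p - 1 := by linarith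
          calc (p - 1) * a ^ 2 ≤ (p - 1) * (64 * s) ^ 2 := by gcongr
            _ ≤ _ := by gcongr
        have e3 : m * (|ε| * η') ≤ 1 / 2 := by
          have h9 : m * η' ≤ 1 := by
            rw [le_div_iff₀ hmpos] at hη'
            linarith
          calc m * (|ε| * η') = |ε| * (m * η') := by ring
            _ ≤ 1 / 2 * 1 := by gcongr
            _ = _ := by norm_num
        rw [mul_add, e1]
        have e4 : (1:ℝ) / 2 ^ 15 * (64 * s) ^ 2 = (s : ℝ) ^ 2 / 8 := by ring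
        linarith

theorem meas_prod {Ω 𝕜 : Type} [MeasurableSpace Ω] [RCLike 𝕜] {m : ℕ} {φ : Ω → 𝕜}
    (hφ : Measurable φ) : Measurable (fun y : Fin m → Ω => ∏ j, φ (y j)) :=
  Finset.measurable_fun_prod Finset.univ (fun j _ => hφ.comp (measurable_pi_apply j))

theorem num_small {η : ℝ} (hη : 0 < η) {s : ℕ} (hs : 1 ≤ s) (h : 3072 / η ≤ (s : ℝ) ^ 2) :
    Real.exp (-(s : ℝ) ^ 2 / 2) * ((2 * (8 * (s : ℝ) ^ 2) * Real.exp ((s : ℝ) ^ 2 / 8)) *
      Real.exp ((s : ℝ) ^ 2 / 8 + 1 / 2)) ≤ η / 3 := by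
  have hs' : (1 : ℝ) ≤ s := by exact_mod_cast hs
  have e1 : Real.exp (-(s : ℝ) ^ 2 / 2) * ((2 * (8 * (s : ℝ) ^ 2) * Real.exp ((s : ℝ) ^ 2 / 8)) *
      Real.exp ((s : ℝ) ^ 2 / 8 + 1 / 2)) =
      16 * (s : ℝ) ^ 2 * (Real.exp (1 / 2) * Real.exp (-((s : ℝ) ^ 2 / 4))) := by
    have : Real.exp (-(s : ℝ) ^ 2 / 2) * Real.exp ((s : ℝ) ^ 2 / 8) *
        Real.exp ((s : ℝ) ^ 2 / 8 + 1 / 2) = Real.exp (1 / 2) * Real.exp (-((s : ℝ) ^ 2 / 4)) := by
      rw [← Real.exp_add, ← Real.exp_add, ← Real.exp_add]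
      congr 1
      ring
    rw [← this]
    ring
  rw [e1, Real.exp_neg]
  have e2 : Real.exp (1 / 2) ≤ 2 := by
    have h1 : Real.exp (1 / 2) ^ 2 = Real.exp 1 := by
      rw [← Real.exp_nat_mul]; norm_num
    have h2 : Real.exp 1 < 4 := by
      have := Real.exp_one_lt_d9
      linarith
    nlinarith [Real.exp_pos (1 / 2)]
  have e3 : (s : ℝ) ^ 4 / 32 ≤ Real.exp ((s : ℝ) ^ 2 / 4) := by
    have := Real.quadratic_le_exp_of_nonneg (x := (s : ℝ) ^ 2 / 4) (by positivity)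
    nlinarith [sq_nonneg (s : ℝ)]
  have e4 : (Real.exp ((s : ℝ) ^ 2 / 4))⁻¹ ≤ ((s : ℝ) ^ 4 / 32)⁻¹ :=
    inv_anti₀ (by positivity) e3
  calc 16 * (s : ℝ) ^ 2 * (Real.exp (1 / 2) * (Real.exp ((s : ℝ) ^ 2 / 4))⁻¹)
      ≤ 16 * (s : ℝ) ^ 2 * (2 * ((s : ℝ) ^ 4 / 32)⁻¹) := by gcongr
    _ = 1024 / (s : ℝ) ^ 2 := by
        have : (s : ℝ) ≠ 0 := by positivity
        field_simp
        norm_num
    _ ≤ η / 3 := by
        rw [div_le_iff₀ (by positivity)]
        rw [div_le_iff₀ hη] at h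
        nlinarith

theorem main_est (hP : PRNStmt) (hT : TELStmt) (hO : ONEStmt) (hE : EXPStmt) {Ω : Type}
    [MeasurableSpace Ω] (μ : Measure Ω)
    [IsProbabilityMeasure μ] {p : ℝ} (hp : 1 < p) (hp2 : p ≤ 1 + 1 / 2 ^ 15)
    {f f0 : Ω → ℝ} (hf : Measurable f) (hf0 : Measurable f0) (h1 : ∀ x, |f0 x| ≤ 1)
    (hS : Sy μ f0) (hv : 1 / 4 ≤ ∫ x, f0 x ^ 2 ∂μ) (s m : ℕ) (hs : 1 ≤ s)
    (hm : 65536 * s ^ 2 ≤ m) (η η' : ℝ) (hη0 : 0 < η) (hη : 0 < η') (hη' : η' ≤ 1 / m)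
    (hη2 : η' ≤ η / (3 * m * 2 ^ m)) (hs2 : 3072 / η ≤ (s : ℝ) ^ 2)
    (hm2 : 144 * (s : ℝ) ^ 4 / η ^ 2 ≤ m)
    (he : eLpNorm (fun x => f x - f0 x) (ENNReal.ofReal p) μ ≤ ENNReal.ofReal η')
    {L : ℕ} (a w : Fin L → ℝ) (ha : ∀ l, |a l| ≤ 64 * s)
    (hw : ∑ l, |w l| ≤ 2 * (8 * (s : ℝ) ^ 2) * Real.exp ((s : ℝ) ^ 2 / 8)) (c : ℝ)
    (hc : c = 1 / Real.sqrt (m * ∫ x, f0 x ^ 2 ∂μ)) :
    eLpNorm (fun y : Fin m → Ω => Real.exp (-(s : ℝ) ^ 2 / 2) *
      ((∏ j, (1 + Complex.I * ((s * c : ℝ) : ℂ) * (f (y j) : ℂ))).im -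
        ∑ l, w l * ∏ j, (1 + a l * c * f (y j))) - Real.sin (s * c * ∑ j, f0 (y j)))
      (ENNReal.ofReal p) (Measure.pi fun _ => μ) ≤ ENNReal.ofReal η := by
  have hs' : (1 : ℝ) ≤ s := by exact_mod_cast hs
  have hm' : (65536 : ℝ) * s ^ 2 ≤ m := by exact_mod_cast hm
  have hmpos : (0 : ℝ) < m := by nlinarith
  have hm1 : (1 : ℝ) ≤ m := by nlinarith
  have hvpos : 0 < ∫ x, f0 x ^ 2 ∂μ := by linarith
  have hmv : 0 < m * ∫ x, f0 x ^ 2 ∂μ := by positivity
  have hsq : 0 < Real.sqrt (m * ∫ x, f0 x ^ 2 ∂μ) := Real.sqrt_pos.2 hmv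
  have hcpos : 0 < c := by rw [hc]; positivity
  have hp1 : (1 : ENNReal) ≤ ENNReal.ofReal p := by
    rw [← ENNReal.ofReal_one]
    exact ENNReal.ofReal_le_ofReal hp.le
  have hp2' : p ≤ 2 := by linarith [show (1:ℝ) / 2 ^ 15 < 1 by norm_num]
  have h0 : ∫ x, f0 x ∂μ = 0 := hS (fun y => y) continuous_id (fun y => rfl)
  set β : ℝ := s * c with hβ
  have hβ2 : β = s / Real.sqrt (m * ∫ x, f0 x ^ 2 ∂μ) := by rw [hβ, hc]; ring
  have hβpos : 0 < β := by positivity
  have hβle : β ≤ 1 / 2 := by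
    have hsqrt : 2 * s ≤ Real.sqrt (m * ∫ x, f0 x ^ 2 ∂μ) := by
      apply Real.le_sqrt_of_sq_le
      nlinarith
    rw [hβ2, div_le_iff₀ hsq]
    linarith
  have hη1 : η' ≤ 1 := hη'.trans (by rw [div_le_one hmpos]; exact hm1)
  set φ : Ω → ℂ := fun x => 1 + Complex.I * (β : ℂ) * (f x : ℂ) with hφd
  set ψ : Ω → ℂ := fun x => 1 + Complex.I * (β : ℂ) * (f0 x : ℂ) with hψd
  have hφm : Measurable φ := by fun_prop
  have hψm : Measurable ψ := by fun_prop
  have hdiff : eLpNorm (fun x => φ x - ψ x) (ENNReal.ofReal p) μ ≤ ENNReal.ofReal η' := by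
    refine (eLpNorm_mono (fun x => ?_)).trans he
    have : φ x - ψ x = Complex.I * (β : ℂ) * ((f x - f0 x : ℝ) : ℂ) := by
      simp only [hφd, hψd]
      push_cast
      ring
    rw [this, norm_mul, norm_mul, Complex.norm_I, Complex.norm_real, Complex.norm_real, one_mul,
      Real.norm_eq_abs, abs_of_pos hβpos]
    have := norm_nonneg (f x - f0 x)
    nlinarith
  have hψn : eLpNorm ψ (ENNReal.ofReal p) μ ≤ ENNReal.ofReal (3 / 2) := by
    have h2 : ∀ᵐ x ∂μ, ‖ψ x‖ ≤ 3 / 2 := by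
      refine Filter.Eventually.of_forall fun x => ?_
      calc ‖ψ x‖ ≤ ‖(1 : ℂ)‖ + ‖Complex.I * (β : ℂ) * (f0 x : ℂ)‖ := norm_add_le _ _
        _ ≤ 1 + 1 / 2 := by
            rw [norm_one, norm_mul, norm_mul, Complex.norm_I, Complex.norm_real,
              Complex.norm_real, one_mul, Real.norm_eq_abs, Real.norm_eq_abs, abs_of_pos hβpos]
            have := h1 x
            have := abs_nonneg (f0 x)
            nlinarith
        _ = 3 / 2 := by norm_num
    have h3 := eLpNorm_le_of_ae_bound (p := ENNReal.ofReal p) h2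
    simpa using h3
  have hψ2 : eLpNorm ψ (ENNReal.ofReal p) μ ≤ 2 := by
    refine hψn.trans ?_
    rw [show (2 : ENNReal) = ENNReal.ofReal 2 by simp]
    exact ENNReal.ofReal_le_ofReal (by norm_num)
  have hφ2 : eLpNorm φ (ENNReal.ofReal p) μ ≤ 2 := by
    have h2 : φ = ψ + (fun x => φ x - ψ x) := by
      funext x
      simp
    rw [h2]
    refine (eLpNorm_add_le hψm.aestronglyMeasurable
      (hφm.sub hψm).aestronglyMeasurable hp1).trans ?_
    have hsmall : η' ≤ 1 / 2 := by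
      refine hη'.trans ?_
      rw [div_le_div_iff₀ hmpos (by norm_num)]
      nlinarith
    calc _ ≤ ENNReal.ofReal (3 / 2) + ENNReal.ofReal η' := add_le_add hψn hdiff
      _ = ENNReal.ofReal (3 / 2 + η') := by rw [ENNReal.ofReal_add (by norm_num) hη.le]
      _ ≤ ENNReal.ofReal 2 := ENNReal.ofReal_le_ofReal (by linarith)
      _ = 2 := by simp
  have hTel := hT ℂ Ω μ p hp.le m φ ψ hφm hψm hφ2 hψ2
  have hExp := hE Ω μ p hp.le hp2' f0 hf0 h1 hS hv m s β hs' (by nlinarith) hβ2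
  set K : ℝ := Real.exp (-(s : ℝ) ^ 2 / 2) with hK
  have hKpos : 0 < K := Real.exp_pos _
  have hK1 : K ≤ 1 := by
    rw [hK]
    apply Real.exp_le_one_iff.2
    have : 0 ≤ (s : ℝ) ^ 2 := by positivity
    linarith
  set D1 : (Fin m → Ω) → ℂ := fun y => Complex.exp (Complex.I * β * ∑ j, (f0 (y j) : ℂ)) -
    (K : ℂ) * ∏ j, ψ (y j) with hD1
  set D2 : (Fin m → Ω) → ℂ := fun y => ∏ j, φ (y j) - ∏ j, ψ (y j) with hD2
  set D3 : (Fin m → Ω) → ℝ := fun y => ∑ l, (K * w l) * ∏ j, (1 + a l * c * f (y j)) with hD3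
  have hD1m : Measurable D1 := by
    have hsum : Measurable (fun y : Fin m → Ω => ∑ j, (f0 (y j) : ℂ)) :=
      Finset.measurable_fun_sum Finset.univ (fun j _ =>
        (Complex.measurable_ofReal.comp hf0).comp (measurable_pi_apply j))
    have := meas_prod (m := m) hψm
    exact (Complex.measurable_exp.comp (hsum.const_mul _)).sub (this.const_mul _)
  have hD2m : Measurable D2 := (meas_prod hφm).sub (meas_prod hψm)
  have hgm : ∀ l, Measurable (fun y : Fin m → Ω => ∏ j, (1 + a l * c * f (y j))) := fun l =>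
    meas_prod (𝕜 := ℝ) (φ := fun x => 1 + a l * c * f x) (measurable_const.add (hf.const_mul _))
  have hD3m : Measurable D3 :=
    Finset.measurable_fun_sum Finset.univ (fun l _ => (hgm l).const_mul _)
  have hkey : (fun y : Fin m → Ω => K *
      ((∏ j, (1 + Complex.I * (β : ℂ) * (f (y j) : ℂ))).im -
        ∑ l, w l * ∏ j, (1 + a l * c * f (y j))) - Real.sin (β * ∑ j, f0 (y j))) =
      fun y => (K * (D2 y).im - (D1 y).im) - D3 y := by
    funext y
    have e1 : (Complex.exp (Complex.I * β * ∑ j, (f0 (y j) : ℂ))).im =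
        Real.sin (β * ∑ j, f0 (y j)) := by
      have : Complex.I * (β : ℂ) * ∑ j, (f0 (y j) : ℂ) =
          ((β * ∑ j, f0 (y j) : ℝ) : ℂ) * Complex.I := by
        push_cast
        ring
      rw [this, Complex.exp_ofReal_mul_I_im]
    have e2 : ((K : ℂ) * ∏ j, ψ (y j)).im = K * (∏ j, ψ (y j)).im := by
      rw [Complex.im_ofReal_mul]
    simp only [hD1, hD2, hD3, Complex.sub_im, e1, e2]
    rw [mul_sub, Finset.mul_sum]
    have e3 : ∑ l, K * (w l * ∏ j, (1 + a l * c * f (y j))) =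
        ∑ l, (K * w l) * ∏ j, (1 + a l * c * f (y j)) :=
      Finset.sum_congr rfl fun l _ => by ring
    rw [e3]
    ring
  rw [hkey]
  have n1 : eLpNorm D1 (ENNReal.ofReal p) (Measure.pi fun _ => μ) ≤ ENNReal.ofReal (η / 3) := by
    refine hExp.trans (ENNReal.ofReal_le_ofReal ?_)
    have hsm : 0 < Real.sqrt m := Real.sqrt_pos.2 hmpos
    rw [div_le_iff₀ hsm]
    have : 12 * (s : ℝ) ^ 2 / η ≤ Real.sqrt m := by
      apply Real.le_sqrt_of_sq_le
      have : (12 * (s : ℝ) ^ 2 / η) ^ 2 = 144 * (s : ℝ) ^ 4 / η ^ 2 := by ring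
      rw [this]
      exact hm2
    rw [div_le_iff₀ hη0] at this
    linarith
  have n2 : eLpNorm D2 (ENNReal.ofReal p) (Measure.pi fun _ => μ) ≤ ENNReal.ofReal (η / 3) := by
    refine hTel.trans ?_
    calc _ ≤ (m : ENNReal) * 2 ^ m * ENNReal.ofReal η' := by gcongr
      _ = ENNReal.ofReal (m * 2 ^ m * η') := by
          rw [ENNReal.ofReal_mul (by positivity), ENNReal.ofReal_mul (by positivity),
            ENNReal.ofReal_natCast, ENNReal.ofReal_pow (by norm_num)]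
          simp
      _ ≤ _ := by
          apply ENNReal.ofReal_le_ofReal
          rw [le_div_iff₀ (by positivity)] at hη2
          rw [le_div_iff₀ (by norm_num)]
          linarith
  have n3 : eLpNorm D3 (ENNReal.ofReal p) (Measure.pi fun _ => μ) ≤ ENNReal.ofReal (η / 3) := by
    have hD3' : D3 = ∑ l, (fun y : Fin m → Ω => (K * w l) * ∏ j, (1 + a l * c * f (y j))) := by
      funext y
      simp [hD3]
    rw [hD3']
    refine (eLpNorm_sum_le (fun l _ => ((hgm l).const_mul _).aestronglyMeasurable) hp1).trans ?_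
    have hl : ∀ l, eLpNorm (fun y : Fin m → Ω => (K * w l) * ∏ j, (1 + a l * c * f (y j)))
        (ENNReal.ofReal p) (Measure.pi fun _ => μ) ≤
        ENNReal.ofReal (K * |w l| * Real.exp ((s : ℝ) ^ 2 / 8 + 1 / 2)) := by
      intro l
      have h2 : (fun y : Fin m → Ω => (K * w l) * ∏ j, (1 + a l * c * f (y j))) =
          (K * w l) • (fun y : Fin m → Ω => ∏ j, (1 + a l * c * f (y j))) := by
        funext y
        simp
      rw [h2, eLpNorm_const_smul]
      have h3 := norm_E hP hO μ hp hp2 hf hf0 h1 h0 hv s m hs hm (a l) η' (ha l) hη hη' he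
      rw [← hc] at h3
      calc _ ≤ ‖K * w l‖ₑ * ENNReal.ofReal (Real.exp ((s : ℝ) ^ 2 / 8 + 1 / 2)) := by gcongr
        _ = _ := by
          rw [Real.enorm_eq_ofReal_abs, abs_mul, abs_of_pos hKpos,
            ← ENNReal.ofReal_mul (by positivity)]
    calc _ ≤ ∑ l, ENNReal.ofReal (K * |w l| * Real.exp ((s : ℝ) ^ 2 / 8 + 1 / 2)) :=
          Finset.sum_le_sum fun l _ => hl l
      _ = ENNReal.ofReal (∑ l, K * |w l| * Real.exp ((s : ℝ) ^ 2 / 8 + 1 / 2)) := by
          rw [ENNReal.ofReal_sum_of_nonneg (fun l _ => by positivity)]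
      _ ≤ _ := by
          apply ENNReal.ofReal_le_ofReal
          rw [← Finset.sum_mul, ← Finset.mul_sum, mul_assoc]
          refine le_trans ?_ (num_small hη0 hs hs2)
          rw [← hK]
          gcongr
  have hm12 : AEStronglyMeasurable (fun y => K * (D2 y).im - (D1 y).im) (Measure.pi fun _ => μ) :=
    (((Complex.measurable_im.comp hD2m).const_mul K).sub
      (Complex.measurable_im.comp hD1m)).aestronglyMeasurable
  refine (eLpNorm_sub_le hm12 hD3m.aestronglyMeasurable hp1).trans ?_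
  have hs12 : eLpNorm (fun y => K * (D2 y).im - (D1 y).im) (ENNReal.ofReal p)
      (Measure.pi fun _ => μ) ≤ ENNReal.ofReal (η / 3) + ENNReal.ofReal (η / 3) := by
    refine (eLpNorm_sub_le ((Complex.measurable_im.comp hD2m).const_mul K).aestronglyMeasurable
      (Complex.measurable_im.comp hD1m).aestronglyMeasurable hp1).trans ?_
    refine add_le_add ((eLpNorm_mono fun y => ?_).trans n2) ((eLpNorm_mono fun y => ?_).trans n1)
    · show ‖K * (D2 y).im‖ ≤ ‖D2 y‖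
      rw [norm_mul, Real.norm_eq_abs, abs_of_pos hKpos, Real.norm_eq_abs]
      have h2 := Complex.abs_im_le_norm (D2 y)
      have h3 := abs_nonneg (D2 y).im
      nlinarith
    · show ‖(D1 y).im‖ ≤ ‖D1 y‖
      rw [Real.norm_eq_abs]
      exact Complex.abs_im_le_norm _
  calc _ ≤ (ENNReal.ofReal (η / 3) + ENNReal.ofReal (η / 3)) + ENNReal.ofReal (η / 3) := by
        gcongr
    _ = ENNReal.ofReal η := by
        rw [← ENNReal.ofReal_add (by positivity) (by positivity),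
          ← ENNReal.ofReal_add (by positivity) (by positivity)]
        congr 1
        ring

theorem sin_sub_sq (u v : ℝ) : (Real.sin u - Real.sin v) ^ 2 ≤ (u - v) ^ 2 := by
  have h1 : |Real.sin u - Real.sin v| ≤ |u - v| := by
    rw [Real.sin_sub_sin, abs_mul, abs_mul, abs_two]
    have h2 : |Real.sin ((u - v) / 2)| ≤ |(u - v) / 2| := Real.abs_sin_le_abs
    have h3 : |Real.cos ((u + v) / 2)| ≤ 1 := Real.abs_cos_le_one _
    have h4 : |(u - v) / 2| = |u - v| / 2 := by rw [abs_div, abs_two]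
    rw [h4] at h2
    have := abs_nonneg (Real.sin ((u - v) / 2))
    have := abs_nonneg (Real.cos ((u + v) / 2))
    nlinarith
  exact sq_le_sq.2 h1

theorem stp_thm (hQ : QUAStmt) (hP : PRNStmt) (hT : TELStmt) (hO : ONEStmt) (hE : EXPStmt)
    (hV : VARStmt) (hF : FLTStmt) (hA : TALStmt) : STPStmt := by
  intro p ρ hp hp2 hρ hPP η hη0
  -- choice of the parameters
  obtain ⟨s, hs2, hs⟩ : ∃ s : ℕ, 3072 / η ≤ (s : ℝ) ^ 2 ∧ 1 ≤ s := by
    obtain ⟨s, hs⟩ := exists_nat_ge (max 1 (3072 / η))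
    have h1 : (1 : ℝ) ≤ s := (le_max_left _ _).trans hs
    have h2 : 3072 / η ≤ s := (le_max_right _ _).trans hs
    refine ⟨s, ?_, by exact_mod_cast h1⟩
    nlinarith
  have hs' : (1 : ℝ) ≤ s := by exact_mod_cast hs
  obtain ⟨m, hm2, hm⟩ : ∃ m : ℕ, 144 * (s : ℝ) ^ 4 / η ^ 2 ≤ m ∧ 65536 * s ^ 2 ≤ m := by
    obtain ⟨m, hm⟩ := exists_nat_ge (144 * (s : ℝ) ^ 4 / η ^ 2)
    refine ⟨max m (65536 * s ^ 2), hm.trans ?_, le_max_right _ _⟩
    exact_mod_cast le_max_left _ _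
  have hm' : (65536 : ℝ) * s ^ 2 ≤ m := by exact_mod_cast hm
  have hmpos : (0 : ℝ) < m := by nlinarith
  set η' : ℝ := min (1 / m) (η / (3 * m * 2 ^ m)) with hη'
  have hη'pos : 0 < η' := by
    rw [hη']
    positivity
  obtain ⟨ι, _, d, f0, f, hd, hC, hf1, hodd, hLip, hv, hfT, he⟩ := hPP η' hη'pos
  obtain ⟨L, a, w, ha, hq, hw⟩ := hQ (8 * s ^ 2) (64 * s) s (by nlinarith) (by positivity)
    (by positivity)
  have hw' : ∑ l, |w l| ≤ 2 * (8 * (s : ℝ) ^ 2) * Real.exp ((s : ℝ) ^ 2 / 8) := by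
    refine hw.trans (le_of_eq ?_)
    have : ((8 * s ^ 2 : ℕ) : ℝ) * s / (64 * s) = (s : ℝ) ^ 2 / 8 := by
      push_cast
      have : (s : ℝ) ≠ 0 := by positivity
      field_simp
      ring
    rw [this]
    push_cast
    ring
  set v : ℝ := ∫ x, f0 x ^ 2 ∂(gam ι) with hvd
  have hvpos : 0 < v := by linarith
  have hmv : 0 < m * v := by positivity
  have hsq : 0 < Real.sqrt (m * v) := Real.sqrt_pos.2 hmv
  set c : ℝ := 1 / Real.sqrt (m * v) with hc
  have hc2 : c ^ 2 * (m * v) = 1 := by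
    rw [hc, div_pow, Real.sq_sqrt hmv.le]
    field_simp
  have hSy : Sy (gam ι) f0 := sy_of_odd hC.continuous hodd
  have hfc : Continuous f := TT_cont hfT
  have hmain := main_est hP hT hO hE (gam ι) hp hp2 hfc.measurable hC.continuous.measurable hf1
    hSy hv s m hs hm η η' hη0 hη'pos (min_le_left _ _) (min_le_right _ _) hs2 hm2 he a w ha hw' c hc
  have hmem := memF (m := m) hA hfT a w (s : ℝ) c (Real.exp (-(s : ℝ) ^ 2 / 2)) hq
  have hfl := hF ι m
  set f' : (Fin m × ι → ℝ) → ℝ := fun x => Real.exp (-(s : ℝ) ^ 2 / 2) *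
    ((∏ j, (1 + Complex.I * ((s * c : ℝ) : ℂ) * (f (blk x j) : ℂ))).im -
      ∑ l, w l * ∏ j, (1 + a l * c * f (blk x j))) with hf'
  set f0' : (Fin m × ι → ℝ) → ℝ := fun x => Real.sin (s * c * ∑ j, f0 (blk x j)) with hf0'
  have hblk : ∀ j : Fin m, ContDiff ℝ 1 (fun x : Fin m × ι → ℝ => blk x j) := fun j =>
    contDiff_pi.2 fun i => contDiff_apply ℝ ℝ (j, i)
  refine ⟨Fin m × ι, inferInstance, 8 * s ^ 2 * d, f0', f', ?_, ?_, ?_, ?_, ?_, ?_, hmem, ?_⟩
  · have : 1 ≤ s ^ 2 := Nat.one_le_pow _ _ hs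
    nlinarith
  · exact Real.contDiff_sin.comp (contDiff_const.mul
      (ContDiff.sum fun j _ => hC.comp (hblk j)))
  · intro x
    exact Real.abs_sin_le_one _
  · intro x
    have e1 : ∀ j : Fin m, f0 (blk (-x) j) = -f0 (blk x j) := by
      intro j
      rw [← hodd]
      rfl
    simp only [hf0', e1, Finset.sum_neg_distrib, mul_neg, Real.sin_neg]
  · intro x y
    refine (sin_sub_sq _ _).trans ?_
    have e1 : s * c * ∑ j, f0 (blk x j) - s * c * ∑ j, f0 (blk y j) =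
        s * c * ∑ j, (f0 (blk x j) - f0 (blk y j)) := by
      rw [Finset.sum_sub_distrib]
      ring
    rw [e1, mul_pow]
    have e2 : (∑ j : Fin m, (f0 (blk x j) - f0 (blk y j))) ^ 2 ≤
        m * ∑ j : Fin m, (f0 (blk x j) - f0 (blk y j)) ^ 2 := by
      have := sq_sum_le_card_mul_sum_sq (s := (Finset.univ : Finset (Fin m)))
        (f := fun j => f0 (blk x j) - f0 (blk y j))
      simpa using this
    have e3 : ∑ j : Fin m, (f0 (blk x j) - f0 (blk y j)) ^ 2 ≤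
        ρ * d * ∑ i : Fin m × ι, (x i - y i) ^ 2 := by
      rw [Fintype.sum_prod_type, Finset.mul_sum]
      exact Finset.sum_le_sum fun j _ => hLip (blk x j) (blk y j)
    have e4 : (s * c) ^ 2 * m ≤ 4 * (s : ℝ) ^ 2 := by
      have h5 : c ^ 2 * m ≤ 4 := by
        have h6 : c ^ 2 * m * v = 1 := by rw [← hc2]; ring
        have h7 : 0 ≤ c ^ 2 * m := by positivity
        nlinarith
      calc (s * c) ^ 2 * m = (s : ℝ) ^ 2 * (c ^ 2 * m) := by ring
        _ ≤ (s : ℝ) ^ 2 * 4 := by gcongr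
        _ = _ := by ring
    have hN : 0 ≤ ρ * d * ∑ i : Fin m × ι, (x i - y i) ^ 2 := by positivity
    calc (s * c) ^ 2 * (∑ j : Fin m, (f0 (blk x j) - f0 (blk y j))) ^ 2
        ≤ (s * c) ^ 2 * (m * (ρ * d * ∑ i : Fin m × ι, (x i - y i) ^ 2)) := by
          gcongr
          exact e2.trans (by gcongr)
      _ = ((s * c) ^ 2 * m) * (ρ * d * ∑ i : Fin m × ι, (x i - y i) ^ 2) := by ring
      _ ≤ (4 * (s : ℝ) ^ 2) * (ρ * d * ∑ i : Fin m × ι, (x i - y i) ^ 2) := by gcongr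
      _ = _ := by push_cast; ring
  · have h2 := hV (ι → ℝ) (gam ι) f0 hC.continuous.measurable hf1 hSy hv m s (s * c) hs'
      (by nlinarith) (by rw [hc]; ring)
    refine h2.trans (le_of_eq ?_)
    have h3 := integral_map (μ := gam (Fin m × ι))
      (φ := fun (x : Fin m × ι → ℝ) (j : Fin m) => blk x j) hfl.measurable.aemeasurable
      (f := fun y : Fin m → ι → ℝ => (Real.sin (s * c * ∑ j, f0 (y j))) ^ 2)
      (by
        have h5 : Continuous (fun y : Fin m → ι → ℝ => (Real.sin (s * c * ∑ j, f0 (y j))) ^ 2) :=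
          (Real.continuous_sin.comp (continuous_const.mul (continuous_finsetSum _ fun j _ =>
            hC.continuous.comp (continuous_apply j)))).pow 2
        exact h5.aestronglyMeasurable)
    rw [hfl.map_eq] at h3
    exact h3
  · have hmeas : AEStronglyMeasurable (fun y : Fin m → ι → ℝ => Real.exp (-(s : ℝ) ^ 2 / 2) *
        ((∏ j, (1 + Complex.I * ((s * c : ℝ) : ℂ) * (f (y j) : ℂ))).im -
        ∑ l, w l * ∏ j, (1 + a l * c * f (y j))) - Real.sin (s * c * ∑ j, f0 (y j)))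
        (Measure.pi fun _ => gam ι) := by
      apply Continuous.aestronglyMeasurable
      have hf0c := hC.continuous
      fun_prop
    have h3 := eLpNorm_comp_measurePreserving (p := ENNReal.ofReal p) hmeas hfl
    have h4 : (fun x => f' x - f0' x) = (fun y : Fin m → ι → ℝ => Real.exp (-(s : ℝ) ^ 2 / 2) *
        ((∏ j, (1 + Complex.I * ((s * c : ℝ) : ℂ) * (f (y j) : ℂ))).im -
        ∑ l, w l * ∏ j, (1 + a l * c * f (y j))) - Real.sin (s * c * ∑ j, f0 (y j))) ∘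
        (fun (x : Fin m × ι → ℝ) (j : Fin m) => blk x j) := rfl
    rw [h4, h3]
    exact hmain

/-- all the properties `PP` -/
theorem PP_all (hB : BASStmt) (hS : STPStmt) {p : ℝ} (hp : 1 < p) (hp2 : p ≤ 1 + 1 / 2 ^ 15)
    (k : ℕ) : PP p (1 / 2 ^ k) := by
  induction k with
  | zero =>
    have := hB p hp (by linarith [show (1:ℝ) / 2 ^ 15 < 1 by norm_num])
    simpa using this
  | succ k ih =>
    have := hS p (1 / 2 ^ k) hp hp2 (by positivity) ih
    have h2 : (1 : ℝ) / 2 ^ k / 2 = 1 / 2 ^ (k + 1) := by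
      rw [pow_succ]
      field_simp
    rwa [h2] at this

/-- the inequality of Q1 fails for `p` close to `1` -/
theorem QI_false (hB : BASStmt) (hS : STPStmt) (hC : CONStmt) (hR : RIXStmt) {p : ℝ} (hp : 1 < p)
    (hp2 : p ≤ 1 + 1 / 2 ^ 15) (c : ℝ) (hc : 0 < c) : ¬ QI p c := by
  intro hQ
  have hp3 : p < 2 := by linarith [show (1:ℝ) / 2 ^ 15 < 1 by norm_num]
  obtain ⟨k, hk⟩ : ∃ k : ℕ, 81 / (c * (p - 1)) < 2 ^ k :=
    pow_unbounded_of_one_lt _ (by norm_num)
  obtain ⟨ι, _, d, f0, f, hd, h1, h2, h3, h4, h5, h6, h7⟩ :=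
    PP_all hB hS hp hp2 k (1 / 8) (by norm_num)
  obtain ⟨n, g0, g, g1, g2, g4, g5, g6, g7⟩ := hR ι d f0 f p (1 / 2 ^ k * d) (1 / 8) h1 h2 h4 h5 h6 h7
  have h8 := hC p c hp hp3 hc hQ n d g0 g (1 / 2 ^ k * d) hd g1 g2 g4 g5 g6 g7
  have hd' : (0 : ℝ) < d := by exact_mod_cast hd
  have hcp : 0 < c * (p - 1) := mul_pos hc (by linarith)
  have h9 : c * (p - 1) ≤ 81 * (1 / 2 ^ k) := by
    have : c * (p - 1) * d ≤ (81 * (1 / 2 ^ k)) * d := by linarith
    exact le_of_mul_le_mul_right this hd'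
  rw [div_lt_iff₀ hcp] at hk
  have h10 : (0 : ℝ) < 2 ^ k := by positivity
  rw [mul_one_div, le_div_iff₀ h10] at h9
  linarith

end Pool.Agent.H22.HD
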